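import Pool.Agent.W586.SK.Stm
import Pool.Agent.H888R2.KT.N7

/-! # SK-LIM: letting the variance of the Gaussian regularisation tend to `0` -/

set_option autoImplicit false

namespace Pool.Agent.W193.SK

open MeasureTheory Set Filter
open scoped ENNReal InnerProductSpace Topology
open Pool.Agent.H212R2.KLS (mu Bdd)
open Pool.Agent.H888R2.KT (LC zz gs gc pst)
open Pool.Agent.W586.SK

variable {n : ℕ}

theorem scale (s : ℝ) (hs : 0 < s) (F : E n → ℝ) :
    ∫ z, F z * Real.exp (-(‖z‖ ^ 2 / (2 * s ^ 2))) =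
      s ^ n * ∫ z : E n, F (s • z) * Real.exp (-(‖z‖ ^ 2 / (2 * 1))) := by
  have h1 := Measure.integral_comp_smul (volume : Measure (E n))
    (fun z => F z * Real.exp (-(‖z‖ ^ 2 / (2 * s ^ 2)))) s
  have h2 : ∀ z : E n, F (s • z) * Real.exp (-(‖s • z‖ ^ 2 / (2 * s ^ 2))) =
      F (s • z) * Real.exp (-(‖z‖ ^ 2 / (2 * 1))) := by
    intro z
    congr 3
    rw [norm_smul, Real.norm_eq_abs, abs_of_pos hs]
    field_simp
  simp only [h2] at h1
  rw [h1, finrank_euclideanSpace_fin, smul_eq_mul, abs_of_pos (by positivity), ← mul_assoc,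
    mul_inv_cancel₀ (by positivity), one_mul]

theorem gc_scale (s : ℝ) (hs : 0 < s) : gc (Fin n) (s ^ 2) = s ^ n * gc (Fin n) 1 := by
  have h1 := scale (n := n) s hs (fun _ => 1)
  simp only [one_mul] at h1
  exact h1

theorem gs_scale (s : ℝ) (hs : 0 < s) (G : E n → ℝ) (x : E n) :
    gs (s ^ 2) G x =
      (∫ z : E n, G (x + s • z) * Real.exp (-(‖z‖ ^ 2 / (2 * 1)))) / gc (Fin n) 1 := by
  rw [Pool.Agent.H888R2.KT.N7x.gs_eq, scale s hs (fun z => G (x + z)), gc_scale s hs,
    mul_div_mul_left _ _ (by positivity)]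

theorem lim : S_LIM := by
  intro n ρ hρ G hG hGc hpos
  have hfin := Pool.Agent.H888R2.KT.N7x.fin_mu hρ
  obtain ⟨B, hB⟩ := hGc.exists_bound_of_continuous hG
  have hB' : ∀ y, |G y| ≤ B := fun y => by simpa [Real.norm_eq_abs] using hB y
  have hB0 : 0 ≤ B := (abs_nonneg _).trans (hB' 0)
  have hgi : Integrable fun z : E n => Real.exp (-(‖z‖ ^ 2 / (2 * 1))) :=
    Pool.Agent.H888R2.KT.N0x.gauss_int' 1 one_pos
  have hg1 : 0 < gc (Fin n) 1 := (Pool.Agent.H888R2.KT.gc_pos 1 one_pos).1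
  -- positivity of the regularised integrals
  have h1 : ∀ h : ℝ, 0 < h → 0 ≤ ∫ x, gs h G x ∂(mu ρ) := by
    intro h hh
    have hf := (Pool.Agent.H888R2.KT.fub hρ h hh (fun _ => 1) G continuous_const hG B hB').2.2
    simp only [one_mul] at hf
    rw [hf]
    have hg0 := (Pool.Agent.H888R2.KT.gc_pos (κ := Fin n) h hh).1
    refine mul_nonneg (inv_nonneg.2 hg0.le) ?_
    have h2 : ∀ y, pst h ρ (fun _ => 1) y * G y * zz h ρ y = G y * zz h ρ y := by
      intro y
      have hz := (Pool.Agent.H888R2.KT.zz_pos hρ h hh y).1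
      have h3 : pst h ρ (fun _ => 1) y = 1 := by
        unfold pst
        simp only [one_mul]
        exact div_self hz.ne'
      rw [h3, one_mul]
    simp only [h2]
    exact hpos h hh
  -- the sequence of scales
  have hs0 : ∀ k : ℕ, (0 : ℝ) < 1 / ((k : ℝ) + 1) := fun k => by positivity
  have hs1 : Tendsto (fun k : ℕ => 1 / ((k : ℝ) + 1)) atTop (𝓝 0) :=
    tendsto_one_div_add_atTop_nhds_zero_nat
  -- pointwise convergence
  have hpt : ∀ x, Tendsto (fun k : ℕ => gs ((1 / ((k : ℝ) + 1)) ^ 2) G x) atTop (𝓝 (G x)) := by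
    intro x
    have h2 : Tendsto (fun k : ℕ => ∫ z : E n, G (x + (1 / ((k : ℝ) + 1)) • z) *
        Real.exp (-(‖z‖ ^ 2 / (2 * 1)))) atTop
        (𝓝 (∫ z : E n, G x * Real.exp (-(‖z‖ ^ 2 / (2 * 1))))) := by
      refine tendsto_integral_of_dominated_convergence
        (fun z => B * Real.exp (-(‖z‖ ^ 2 / (2 * 1)))) (fun k => ?_) (hgi.const_mul B)
        (fun k => ?_) ?_
      · have : Continuous (fun z : E n => G (x + (1 / ((k : ℝ) + 1)) • z) *
            Real.exp (-(‖z‖ ^ 2 / (2 * 1)))) := by fun_prop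
        exact this.aestronglyMeasurable
      · refine Eventually.of_forall fun z => ?_
        rw [norm_mul, Real.norm_eq_abs, Real.norm_eq_abs, abs_of_pos (Real.exp_pos _)]
        exact mul_le_mul_of_nonneg_right (hB' _) (Real.exp_pos _).le
      · refine Eventually.of_forall fun z => ?_
        refine Tendsto.mul_const _ ?_
        have h3 : Tendsto (fun k : ℕ => x + (1 / ((k : ℝ) + 1)) • z) atTop
            (𝓝 (x + (0 : ℝ) • z)) := (hs1.smul_const z).const_add x
        rw [zero_smul, add_zero] at h3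
        exact (hG.tendsto x).comp h3
    rw [integral_const_mul] at h2
    have h4 := h2.div_const (gc (Fin n) 1)
    have h5 : G x * (∫ z : E n, Real.exp (-(‖z‖ ^ 2 / (2 * 1)))) / gc (Fin n) 1 = G x :=
      mul_div_cancel_right₀ _ hg1.ne'
    rw [h5] at h4
    refine h4.congr fun k => ?_
    rw [gs_scale _ (hs0 k)]
  -- bound
  have hbd : ∀ k : ℕ, ∀ x, ‖gs ((1 / ((k : ℝ) + 1)) ^ 2) G x‖ ≤ B := by
    intro k x
    rw [gs_scale _ (hs0 k), norm_div, Real.norm_eq_abs (gc _ _), abs_of_pos hg1,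
      div_le_iff₀ hg1]
    calc ‖∫ z : E n, G (x + (1 / ((k : ℝ) + 1)) • z) * Real.exp (-(‖z‖ ^ 2 / (2 * 1)))‖
        ≤ ∫ z : E n, B * Real.exp (-(‖z‖ ^ 2 / (2 * 1))) := by
          refine norm_integral_le_of_norm_le (hgi.const_mul B) (Eventually.of_forall fun z => ?_)
          rw [norm_mul, Real.norm_eq_abs, Real.norm_eq_abs, abs_of_pos (Real.exp_pos _)]
          exact mul_le_mul_of_nonneg_right (hB' _) (Real.exp_pos _).le
      _ = B * gc (Fin n) 1 := by
          rw [integral_const_mul]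
          rfl
  have hlim : Tendsto (fun k : ℕ => ∫ x, gs ((1 / ((k : ℝ) + 1)) ^ 2) G x ∂(mu ρ)) atTop
      (𝓝 (∫ x, G x ∂(mu ρ))) := by
    refine tendsto_integral_of_dominated_convergence (fun _ => B) (fun k => ?_)
      (integrable_const B) (fun k => Eventually.of_forall (hbd k)) (Eventually.of_forall hpt)
    exact (Pool.Agent.H888R2.KT.N7x.cont_gs _ (by positivity) G hG B hB').aestronglyMeasurable
  exact ge_of_tendsto' hlim fun k => h1 _ (by positivity)

end Pool.Agent.W193.SK
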